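import Mathlib

/-!
# CarU/Appr : uniform approximation on a set, sets of antisymmetry

`Appr A K u`: the function `u` is a uniform limit on `K` of elements of `A`.
`Anti A K`: every such `u` which is real on `K` is constant on `K`.

* `appr_continuousOn`: uniform limits of continuous functions.
* `anti_closure`: if `u` is approximable on `closure K`, it is approximable on `K`, and it is
  continuous on `closure K` (`appr_continuousOn`), so constant on `closure K` if it is constant on `K`.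
* `anti_sUnion`: the sets all contain `x₀`.
* `appr_add, appr_mul, appr_const` etc.: `A` is an algebra; for products use that approximable functions
  are bounded on `K` (`X` is compact, so the elements of `A` are bounded: `|a b - u v| ≤ |a||b - v| + |v||a - u|`).
* `appr_of_appr`: a uniform limit of approximable functions is approximable.
-/

open Set Metric

namespace CarU

/-- `u` is a uniform limit on `K` of elements of `A` -/
def Appr {X : Type*} [TopologicalSpace X] (A : Subalgebra ℂ C(X, ℂ)) (K : Set X)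
    (u : X → ℂ) : Prop :=
  ∀ ε > 0, ∃ a ∈ A, ∀ x ∈ K, ‖a x - u x‖ < ε

/-- set of antisymmetry -/
def Anti {X : Type*} [TopologicalSpace X] (A : Subalgebra ℂ C(X, ℂ)) (K : Set X) : Prop :=
  ∀ u : X → ℂ, Appr A K u → (∀ x ∈ K, (u x).im = 0) → ∀ x ∈ K, ∀ y ∈ K, u x = u y

variable {X : Type*} [TopologicalSpace X] {A : Subalgebra ℂ C(X, ℂ)} {K K' : Set X}

theorem Appr.mono {u : X → ℂ} (h : Appr A K u) (hK : K' ⊆ K) : Appr A K' u := by
  intro ε hε
  obtain ⟨a, ha, h1⟩ := h ε hε
  exact ⟨a, ha, fun x hx => h1 x (hK hx)⟩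

theorem appr_mem {a : C(X, ℂ)} (ha : a ∈ A) : Appr A K a := by
  intro ε hε
  exact ⟨a, ha, fun x _ => by simpa using hε⟩

theorem appr_const (c : ℂ) : Appr A K (fun _ => c) := by
  intro ε hε
  exact ⟨algebraMap ℂ C(X, ℂ) c, A.algebraMap_mem c, fun x _ => by simpa using hε⟩

theorem appr_continuousOn {u : X → ℂ} (h : Appr A K u) : ContinuousOn u K := by
  refine continuousOn_of_uniform_approx_of_continuousOn ?_
  intro U hU
  obtain ⟨ε, hε, hεU⟩ := Metric.mem_uniformity_dist.mp hU
  obtain ⟨a, -, h1⟩ := h ε hε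
  refine ⟨a, a.continuous.continuousOn, fun y hy => hεU ?_⟩
  rw [dist_comm, dist_eq_norm]
  exact h1 y hy

theorem appr_bdd [CompactSpace X] {u : X → ℂ} (h : Appr A K u) :
    ∃ M : ℝ, ∀ x ∈ K, ‖u x‖ ≤ M := by
  obtain ⟨a, -, h1⟩ := h 1 one_pos
  refine ⟨‖a‖ + 1, fun x hx => ?_⟩
  have h2 := h1 x hx
  have h3 := a.norm_coe_le_norm x
  have h4 : u x = a x - (a x - u x) := by ring
  calc ‖u x‖ = ‖a x - (a x - u x)‖ := by rw [← h4]
    _ ≤ ‖a x‖ + ‖a x - u x‖ := norm_sub_le _ _
    _ ≤ ‖a‖ + 1 := by linarith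

theorem Appr.add {u v : X → ℂ} (h : Appr A K u) (h' : Appr A K v) :
    Appr A K (fun x => u x + v x) := by
  intro ε hε
  obtain ⟨a, ha, h1⟩ := h (ε / 2) (by linarith)
  obtain ⟨b, hb, h2⟩ := h' (ε / 2) (by linarith)
  refine ⟨a + b, A.add_mem ha hb, fun x hx => ?_⟩
  have e : (a + b) x - (u x + v x) = (a x - u x) + (b x - v x) := by
    rw [ContinuousMap.add_apply]
    ring
  rw [e]
  have h3 := norm_add_le (a x - u x) (b x - v x)
  have h4 := h1 x hx
  have h5 := h2 x hx
  linarith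

theorem Appr.mul [CompactSpace X] {u v : X → ℂ} (h : Appr A K u) (h' : Appr A K v) :
    Appr A K (fun x => u x * v x) := by
  intro ε hε
  obtain ⟨M, hM⟩ := appr_bdd h'
  have hM0 : 0 < |M| + 1 := by positivity
  obtain ⟨a, ha, h1⟩ := h (ε / (2 * (|M| + 1))) (by positivity)
  have ha0 : 0 < ‖a‖ + 1 := by positivity
  obtain ⟨b, hb, h2⟩ := h' (ε / (2 * (‖a‖ + 1))) (by positivity)
  refine ⟨a * b, A.mul_mem ha hb, fun x hx => ?_⟩
  have e : (a * b) x - u x * v x = a x * (b x - v x) + (a x - u x) * v x := by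
    rw [ContinuousMap.mul_apply]
    ring
  rw [e]
  have h3 := a.norm_coe_le_norm x
  have h4 : ‖v x‖ ≤ |M| + 1 := (hM x hx).trans ((le_abs_self M).trans (by linarith))
  have h5 : ‖a x * (b x - v x)‖ < ε / 2 := by
    rw [norm_mul]
    calc ‖a x‖ * ‖b x - v x‖ ≤ (‖a‖ + 1) * ‖b x - v x‖ :=
          mul_le_mul_of_nonneg_right (by linarith) (norm_nonneg _)
      _ < (‖a‖ + 1) * (ε / (2 * (‖a‖ + 1))) := mul_lt_mul_of_pos_left (h2 x hx) ha0
      _ = ε / 2 := by field_simp
  have h6 : ‖(a x - u x) * v x‖ ≤ ε / 2 := by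
    rw [norm_mul]
    calc ‖a x - u x‖ * ‖v x‖ ≤ ε / (2 * (|M| + 1)) * (|M| + 1) :=
          mul_le_mul (h1 x hx).le h4 (norm_nonneg _) (by positivity)
      _ = ε / 2 := by field_simp
  have h7 := norm_add_le (a x * (b x - v x)) ((a x - u x) * v x)
  linarith

theorem Appr.pow [CompactSpace X] {u : X → ℂ} (h : Appr A K u) (n : ℕ) :
    Appr A K (fun x => u x ^ n) := by
  induction n with
  | zero =>
    have e : (fun x => u x ^ 0) = fun _ => (1 : ℂ) := by
      funext x
      simp
    rw [e]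
    exact appr_const 1
  | succ n ih =>
    have e : (fun x => u x ^ (n + 1)) = fun x => u x ^ n * u x := by
      funext x
      rw [pow_succ]
    rw [e]
    exact ih.mul h

theorem appr_of_appr {u : X → ℂ} (h : ∀ ε > 0, ∃ v : X → ℂ, Appr A K v ∧
    ∀ x ∈ K, ‖v x - u x‖ < ε) : Appr A K u := by
  intro ε hε
  obtain ⟨v, hv, h1⟩ := h (ε / 2) (by linarith)
  obtain ⟨a, ha, h2⟩ := hv (ε / 2) (by linarith)
  refine ⟨a, ha, fun x hx => ?_⟩
  have e : a x - u x = (a x - v x) + (v x - u x) := by ring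
  rw [e]
  have h3 := norm_add_le (a x - v x) (v x - u x)
  have h4 := h1 x hx
  have h5 := h2 x hx
  linarith

theorem anti_singleton (x : X) : Anti A {x} := by
  intro u _ _ y hy z hz
  rw [mem_singleton_iff] at hy hz
  rw [hy, hz]

theorem anti_closure (h : Anti A K) : Anti A (closure K) := by
  intro u hu hre x hx y hy
  have h1 : ∀ p ∈ K, ∀ q ∈ K, u p = u q :=
    h u (hu.mono subset_closure) fun z hz => hre z (subset_closure hz)
  obtain ⟨z, hz⟩ : K.Nonempty := closure_nonempty_iff.mp ⟨x, hx⟩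
  have h2 : Set.EqOn u (fun _ => u z) K := fun p hp => h1 p hp z hz
  have h3 : Set.EqOn u (fun _ => u z) (closure K) :=
    h2.of_subset_closure (appr_continuousOn hu) continuousOn_const subset_closure Subset.rfl
  rw [h3 hx, h3 hy]

theorem anti_sUnion {S : Set (Set X)} {x₀ : X} (h : ∀ K ∈ S, Anti A K ∧ x₀ ∈ K) :
    Anti A (⋃₀ S) := by
  intro u hu hre x hx y hy
  have key : ∀ z ∈ ⋃₀ S, u z = u x₀ := by
    intro z hz
    obtain ⟨K, hK, hzK⟩ := hz
    exact (h K hK).1 u (hu.mono (subset_sUnion_of_mem hK))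
      (fun w hw => hre w (subset_sUnion_of_mem hK hw)) z hzK x₀ (h K hK).2
  rw [key x hx, key y hy]

end CarU
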