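import Mathlib
import Pool.Agent.CarU.Appr
import Pool.Agent.CarA.Loc

/-!
# CarU/AntiC : on a set of antisymmetry every nonconstant `f` has an image with localised data

`K` is closed, `Anti A K`, inverses of `f - z` (`z ∉ f '' K`) are approximable on `K`. Let `Y = f '' K`
(compact), `y₀ ∈ Y ∩ U`, and let `y₁ ∈ Y`, `y₁ ≠ y₀` (`f` is not constant on `K`). Choose
`r > 0` with `closedBall y₀ r ⊆ U` and `r < dist y₀ y₁`, and let
`φ w = max 0 (1 - dist w y₀ / r)` (real valued, continuous, compact support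
`⊆ closedBall y₀ r ⊆ U`), `φ y₀ = 1`, `φ y₁ = 0`.

Let `B = {v : C(Y, ℂ) | Appr A K (fun x => if h : f x ∈ Y then v ⟨f x, h⟩ else 0)}` (only the values
for `x ∈ K`, `f x ∈ Y`, matter). It is a closed subalgebra of `C(Y, ℂ)` (`Appr.add`, `Appr.mul`,
`appr_const`, `appr_of_appr` for closedness: a uniform limit on `Y`). The restriction of `φ` to
`Y` is not in `B`: otherwise `φ ∘ f` would be approximable and real on `K`, so constant on `K` by `Anti`; but
it takes the values `1` and `0`. For `z ∉ Y` the function `h y = 1/(y - z)` on `Y` is in `B`: `h (f x)` is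
equal on `K` to the `u x` of `hinv`. `Pool.Agent.Carp.exists_dat_of_notMem` (file CarA/Loc) gives
`V ⊆ U` compact with `Dat (Y ∩ V) F m`. Take `Z = Y ∩ V`.
-/

open Set Metric MeasureTheory

namespace CarU

namespace AntiCAux

theorem congr_on {X : Type*} [TopologicalSpace X] {A : Subalgebra ℂ C(X, ℂ)} {K : Set X}
    {u v : X → ℂ} (h : Appr A K u) (huv : ∀ x ∈ K, u x = v x) : Appr A K v := by
  intro ε hε
  obtain ⟨a, ha, h1⟩ := h ε hε
  exact ⟨a, ha, fun x hx => by rw [← huv x hx]; exact h1 x hx⟩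

end AntiCAux

theorem anti_dat {X : Type*} [TopologicalSpace X] [CompactSpace X] [T2Space X]
    (A : Subalgebra ℂ C(X, ℂ)) {K : Set X} (hKc : IsClosed K) (hA : Anti A K)
    (f : C(X, ℂ))
    (hinv : ∀ z, z ∉ f '' K → ∃ u : X → ℂ, Appr A K u ∧ ∀ x ∈ K, u x * (f x - z) = 1)
    (hf : ∃ x ∈ K, ∃ y ∈ K, f x ≠ f y) {U : Set ℂ} (hU : IsOpen U)
    (hne : (f '' K ∩ U).Nonempty) :
    ∃ (Z : Set ℂ) (F : ℂ → ℂ) (m : Measure ℂ), IsCompact Z ∧ Z ⊆ f '' K ∩ U ∧
      CarA.Dat Z F m := by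
  classical
  have hY : IsCompact (f '' K) := hKc.isCompact.image f.continuous
  have hYc : CompactSpace (f '' K) := isCompact_iff_compactSpace.mp hY
  obtain ⟨y₀, hy₀, hy₀U⟩ := hne
  obtain ⟨y₁, hy₁, hy01⟩ : ∃ y₁ ∈ f '' K, y₁ ≠ y₀ := by
    obtain ⟨x, hx, y, hy, hxy⟩ := hf
    by_cases h : f x = y₀
    · exact ⟨f y, mem_image_of_mem f hy, fun h' => hxy (h.trans h'.symm)⟩
    · exact ⟨f x, mem_image_of_mem f hx, h⟩
  obtain ⟨r₀, hr₀, hr₀U⟩ := Metric.isOpen_iff.mp hU y₀ hy₀U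
  have hd : 0 < dist y₀ y₁ := dist_pos.2 (Ne.symm hy01)
  set r : ℝ := min (r₀ / 2) (dist y₀ y₁ / 2) with hr
  have hr0 : 0 < r := lt_min (half_pos hr₀) (half_pos hd)
  have hrU : closedBall y₀ r ⊆ U :=
    (closedBall_subset_ball (lt_of_le_of_lt (min_le_left _ _) (half_lt_self hr₀))).trans hr₀U
  have hr1 : r < dist y₀ y₁ := lt_of_le_of_lt (min_le_right _ _) (half_lt_self hd)
  -- the algebra
  let E : C(f '' K, ℂ) → X → ℂ := fun v x => if h : f x ∈ f '' K then v ⟨f x, h⟩ else 0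
  have hE : ∀ (v : C(f '' K, ℂ)) (x : X) (hx : x ∈ K), E v x = v ⟨f x, mem_image_of_mem f hx⟩ := by
    intro v x hx
    exact dif_pos (mem_image_of_mem f hx)
  let B : Subalgebra ℂ C(f '' K, ℂ) :=
    { carrier := {v | Appr A K (E v)}
      mul_mem' := by
        intro v w hv hw
        refine AntiCAux.congr_on (Appr.mul hv hw) fun x hx => ?_
        rw [hE v x hx, hE w x hx, hE (v * w) x hx, ContinuousMap.mul_apply]
      add_mem' := by
        intro v w hv hw
        refine AntiCAux.congr_on (Appr.add hv hw) fun x hx => ?_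
        rw [hE v x hx, hE w x hx, hE (v + w) x hx, ContinuousMap.add_apply]
      algebraMap_mem' := by
        intro c
        refine AntiCAux.congr_on (appr_const c) fun x hx => ?_
        rw [hE _ x hx]
        rfl }
  have hmem : ∀ v : C(f '' K, ℂ), v ∈ B ↔ Appr A K (E v) := fun v => Iff.rfl
  have hB : IsClosed (B : Set C(f '' K, ℂ)) := by
    refine isClosed_of_closure_subset fun v hv => ?_
    refine (hmem v).2 (appr_of_appr fun ε hε => ?_)
    obtain ⟨b, hb, hbv⟩ := Metric.mem_closure_iff.1 hv ε hε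
    refine ⟨E b, (hmem b).1 hb, fun x hx => ?_⟩
    rw [hE b x hx, hE v x hx, ← dist_eq_norm, dist_comm]
    exact lt_of_le_of_lt (ContinuousMap.dist_apply_le_dist _) hbv
  have hBinv : ∀ z, z ∉ f '' K → ∃ h ∈ B, ∀ y : f '' K, h y * ((y : ℂ) - z) = 1 := by
    intro z hz
    obtain ⟨u, hu, hu1⟩ := hinv z hz
    have hnz : ∀ y : f '' K, (y : ℂ) - z ≠ 0 := by
      intro y h0
      exact hz ((sub_eq_zero.mp h0) ▸ y.2)
    let ψ : C(f '' K, ℂ) := ⟨fun y => ((y : ℂ) - z)⁻¹,
      (continuous_subtype_val.sub continuous_const).inv₀ hnz⟩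
    refine ⟨ψ, (hmem ψ).2 (AntiCAux.congr_on hu fun x hx => ?_), fun y => inv_mul_cancel₀ (hnz y)⟩
    rw [hE ψ x hx]
    exact eq_inv_of_mul_eq_one_left (hu1 x hx)
  -- the bump
  let φ : C(ℂ, ℂ) := ⟨fun w => ((max 0 (1 - dist w y₀ / r) : ℝ) : ℂ),
    Complex.continuous_ofReal.comp (continuous_const.max
      (continuous_const.sub ((continuous_id.dist continuous_const).div_const r)))⟩
  have hφ : ∀ w, φ w = ((max 0 (1 - dist w y₀ / r) : ℝ) : ℂ) := fun w => rfl
  have hsupp : Function.support φ ⊆ closedBall y₀ r := by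
    intro w hw
    by_contra hcon
    apply hw
    rw [mem_closedBall, not_le] at hcon
    have h1 : 1 - dist w y₀ / r ≤ 0 := by
      rw [sub_nonpos, one_le_div hr0]
      exact hcon.le
    rw [hφ, max_eq_left h1, Complex.ofReal_zero]
  have hts : tsupport φ ⊆ closedBall y₀ r := closure_minimal hsupp isClosed_closedBall
  have hcs : HasCompactSupport φ :=
    (isCompact_closedBall y₀ r).of_isClosed_subset (isClosed_tsupport _) hts
  have hnot : φ.restrict (f '' K) ∉ B := by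
    intro hcon
    have h1 : Appr A K (E (φ.restrict (f '' K))) := (hmem _).1 hcon
    have h2 : ∀ x ∈ K, E (φ.restrict (f '' K)) x = φ (f x) := fun x hx => by
      rw [hE _ x hx]
      rfl
    obtain ⟨x, hx, hxy⟩ := hy₀
    obtain ⟨y, hy, hyy⟩ := hy₁
    have h3 := hA _ h1 (fun x hx => by rw [h2 x hx, hφ, Complex.ofReal_im]) x hx y hy
    rw [h2 x hx, h2 y hy, hxy, hyy, hφ, hφ, Complex.ofReal_inj, dist_self, zero_div, sub_zero,
      max_eq_right zero_le_one, max_eq_left] at h3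
    · exact one_ne_zero h3
    · rw [sub_nonpos, one_le_div hr0, dist_comm]
      exact hr1.le
  obtain ⟨V, F, m, hVc, hVU, hD⟩ := Pool.Agent.Carp.exists_dat_of_notMem hY B hB hBinv hU φ hcs
    (hts.trans hrU) hnot
  exact ⟨f '' K ∩ V, F, m, hD.comp, inter_subset_inter_right _ hVU, hD⟩

end CarU
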