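import Mathlib
import Pool.Agent.Carp.Ana
import Pool.Agent.Carp.Bridge
import Pool.Agent.Carp.Hull
import Pool.Agent.CarT.Main

/-!
# CarU/Base : sets containing a copy of the standard Sierpinski carpet
-/

open Set Metric MeasureTheory

namespace CarU

/-- `S` contains a subset homeomorphic to the standard Sierpinski carpet, as the image of a
continuous injective map -/
def HasCarpet {X : Type*} [TopologicalSpace X] (S : Set X) : Prop :=
  ∃ f : ℝ × ℝ → X, ContinuousOn f CarT.Carpet ∧ InjOn f CarT.Carpet ∧ MapsTo f CarT.Carpet S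

theorem HasCarpet.mono {X : Type*} [TopologicalSpace X] {S S' : Set X} (h : HasCarpet S)
    (hS : S ⊆ S') : HasCarpet S' := by
  obtain ⟨f, h1, h2, h3⟩ := h
  exact ⟨f, h1, h2, fun x hx => hS (h3 hx)⟩

/-- a compact plane set which carries the data of the analysis part contains a carpet -/
theorem hasCarpet_of_dat {X : Set ℂ} {F : ℂ → ℂ} {m : Measure ℂ} (h : CarA.Dat X F m) :
    HasCarpet X := by
  obtain ⟨p, R, r, hR, hr, hd, htr⟩ := Pool.Agent.Carp.exists_preRel_of_dat h
  have hB : Convex ℝ (closedBall p R) := convex_closedBall p R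
  obtain ⟨f, h1, h2, h3⟩ := CarT.carpet_in_T
    (Pool.Agent.Carp.sys_of_fullRel hR (Pool.Agent.Carp.hull_full hr hB)
      (Pool.Agent.Carp.hull_diam hr hB hd))
  refine ⟨f, h1, h2, fun x hx => ?_⟩
  obtain ⟨h4, h5⟩ := h3 hx
  exact htr _ h4 fun y hy => h5 y (Pool.Agent.Carp.le_hull hr hy)

end CarU
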