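import Mathlib
import Pool.Agent.CarU.Base
import Pool.Agent.CarT.CellA

/-!
# CarU/Homeo : from a continuous injective map to a homeomorphic copy
-/

open Set Metric

namespace CarU

theorem homeo_of_hasCarpet {X : Type*} [TopologicalSpace X] [T2Space X] {S : Set X}
    (h : HasCarpet S) : ∃ S' ⊆ S, Nonempty (S' ≃ₜ CarT.Carpet) := by
  obtain ⟨f, h1, h2, h3⟩ := h
  have hc : CompactSpace CarT.Carpet := isCompact_iff_compactSpace.mp CarT.isCompact_Carpet
  have hcont : Continuous (fun p : CarT.Carpet => f p) := by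
    rw [continuousOn_iff_continuous_restrict] at h1
    exact h1
  have hinj : Function.Injective (fun p : CarT.Carpet => f p) := fun p q hpq =>
    Subtype.ext (h2 p.2 q.2 hpq)
  have hemb := hcont.isClosedEmbedding hinj
  refine ⟨range (fun p : CarT.Carpet => f p), ?_, ⟨(hemb.isEmbedding.toHomeomorph).symm⟩⟩
  rintro _ ⟨p, rfl⟩
  exact h3 p.2

end CarU
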