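import Mathlib
import Pool.Agent.CarU.Appr

/-!
# CarU/InvK : inverses on a convex set

`A` is natural, `K` is closed, nonempty and `A`-convex (`hK`). Let `B` be the closure in `C(K, ℂ)` of the algebra of
restrictions of elements of `A` (`Subalgebra.topologicalClosure` of `A.map` of the restriction
homomorphism `C(X, ℂ) →ₐ C(K, ℂ)`, `ContinuousMap.compRightAlgHom`), a complete commutative normed
algebra. Let `f ∈ A`, `z ∉ f '' K`. If `f - z` is not invertible in `B`, there is a character `ψ` of `B` with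
`ψ (f - z) = 0` (`WeakDual.CharacterSpace.exists_apply_eq_zero`, as in
`Pool.Agent.Carp.exists_inverse`, file Carp/UA). `ψ` is contractive
(`AlgHom.norm_apply_le_self`), and `a ↦ ψ (a|K)` is a character of `A`, so it is the evaluation
at some `x : X`, and `‖a x‖ ≤ ‖a|K‖ = max over K` for all `a ∈ A`; the maximum is attained (`K` is
compact and nonempty), so `x ∈ K` by `hK`. But `f x = z`, contradiction. So `f - z` has an inverse in
`B`: a uniform limit on `K` of elements of `A`; extend it by `0` to a function `u : X → ℂ`.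
-/

open Set Metric

namespace CarU

theorem exists_inv_on {X : Type*} [TopologicalSpace X] [CompactSpace X] [T2Space X]
    (A : Subalgebra ℂ C(X, ℂ))
    (hnat : ∀ φ : A →ₐ[ℂ] ℂ, ∃ x : X, ∀ f : A, φ f = (f : C(X, ℂ)) x)
    {K : Set X} (hKc : IsClosed K) (hKn : K.Nonempty)
    (hK : ∀ x, (∀ a ∈ A, ∃ y ∈ K, ‖a x‖ ≤ ‖a y‖) → x ∈ K)
    {f : C(X, ℂ)} (hf : f ∈ A) {z : ℂ} (hz : z ∉ f '' K) :
    ∃ u : X → ℂ, Appr A K u ∧ ∀ x ∈ K, u x * (f x - z) = 1 := by
  classical
  have : CompactSpace K := isCompact_iff_compactSpace.mp hKc.isCompact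
  have : Nonempty K := hKn.to_subtype
  let ι : C(K, X) := ⟨Subtype.val, continuous_subtype_val⟩
  let ρ : C(X, ℂ) →ₐ[ℂ] C(K, ℂ) := ContinuousMap.compRightAlgHom ℂ ℂ ι
  have hρ : ∀ (a : C(X, ℂ)) (x : K), ρ a x = a x := fun a x => rfl
  set B : Subalgebra ℂ C(K, ℂ) := (A.map ρ).topologicalClosure with hB
  have hBc : IsClosed (B : Set C(K, ℂ)) := Subalgebra.isClosed_topologicalClosure _
  have hsub : ∀ a ∈ A, ρ a ∈ B := fun a ha =>
    (A.map ρ).le_topologicalClosure (Subalgebra.mem_map.mpr ⟨a, ha, rfl⟩)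
  have : CompleteSpace B := hBc.completeSpace_coe
  have hmem : ρ f - algebraMap ℂ C(K, ℂ) z ∈ B := B.sub_mem (hsub f hf) (B.algebraMap_mem z)
  set u : B := ⟨ρ f - algebraMap ℂ C(K, ℂ) z, hmem⟩ with hu
  have hunit : IsUnit u := by
    by_contra hcon
    obtain ⟨ψ, hψ⟩ := WeakDual.CharacterSpace.exists_apply_eq_zero hcon
    let j : A →ₐ[ℂ] B := (ρ.comp A.val).codRestrict B fun a => hsub a a.2
    obtain ⟨x, hx⟩ := hnat ((WeakDual.CharacterSpace.toAlgHom ψ).comp j)
    have hnorm : ∀ b : B, ‖WeakDual.CharacterSpace.toAlgHom ψ b‖ ≤ ‖b‖ := by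
      intro b
      have h1 : WeakDual.CharacterSpace.toAlgHom ψ b ∈ spectrum ℂ b :=
        AlgHom.apply_mem_spectrum _ b
      have h2 := spectrum.norm_le_norm_mul_of_mem h1
      have h3 : ‖(1 : B)‖ = 1 := by
        change ‖(1 : C(K, ℂ))‖ = 1
        exact norm_one
      rw [h3, mul_one] at h2
      exact h2
    have hxK : x ∈ K := by
      apply hK
      intro a ha
      obtain ⟨y, hy, hmax⟩ := hKc.isCompact.exists_isMaxOn hKn
        (a.continuous.norm.continuousOn : ContinuousOn (fun t => ‖a t‖) K)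
      refine ⟨y, hy, ?_⟩
      have h1 : ‖a x‖ ≤ ‖ρ a‖ := by
        have h2 := hx ⟨a, ha⟩
        have h3 := hnorm (j ⟨a, ha⟩)
        have h4 : ‖(a : C(X, ℂ)) x‖ = ‖WeakDual.CharacterSpace.toAlgHom ψ (j ⟨a, ha⟩)‖ := by
          rw [← AlgHom.comp_apply, h2]
        rw [h4]
        exact h3
      refine h1.trans ?_
      rw [ContinuousMap.norm_le _ (norm_nonneg _)]
      intro t
      exact hmax t.2
    apply hz
    refine ⟨x, hxK, ?_⟩
    have h1 := hx ⟨f, hf⟩
    have h2 : WeakDual.CharacterSpace.toAlgHom ψ u = 0 := hψ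
    have h3 : u = j ⟨f, hf⟩ - algebraMap ℂ B z := by
      apply Subtype.ext
      rfl
    rw [h3, map_sub, AlgHom.commutes] at h2
    have h4 : WeakDual.CharacterSpace.toAlgHom ψ (j ⟨f, hf⟩) = z := by
      have := sub_eq_zero.mp h2
      simpa using this
    rw [AlgHom.comp_apply, h4] at h1
    exact h1.symm
  obtain ⟨v, hv⟩ := hunit.exists_left_inv
  refine ⟨fun x => if h : x ∈ K then (v : C(K, ℂ)) ⟨x, h⟩ else 0, ?_, ?_⟩
  · intro ε hε
    have h1 : (v : C(K, ℂ)) ∈ closure ((A.map ρ : Subalgebra ℂ C(K, ℂ)) : Set C(K, ℂ)) := v.2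
    obtain ⟨g, hg, hd⟩ := Metric.mem_closure_iff.mp h1 ε hε
    obtain ⟨a, ha, rfl⟩ := Subalgebra.mem_map.mp hg
    refine ⟨a, ha, fun x hx => ?_⟩
    simp only [dif_pos hx]
    have h2 : ‖(ρ a - (v : C(K, ℂ))) ⟨x, hx⟩‖ ≤ ‖ρ a - (v : C(K, ℂ))‖ :=
      ContinuousMap.norm_coe_le_norm _ _
    rw [dist_comm, dist_eq_norm] at hd
    exact lt_of_le_of_lt h2 hd
  · intro x hx
    simp only [dif_pos hx]
    have h1 := congrArg (fun w : B => (w : C(K, ℂ)) ⟨x, hx⟩) hv
    exact h1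

end CarU
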