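import Mathlib
import Pool.Agent.Carp.PE
import Pool.Agent.Carp.Dat

/-!
# CarU/LocA : localised data

`dat_loc` is a variation of `Pool.Agent.Carp.exists_pair` (file Carp/PE) and `exists_dat` (file Carp/Dat).
Let `F₀ = cau m g` (`cau_pair`: it is a `Pair` with the measure `μ = |g| m`) and `F₁ z = θ z * F₀ z`.
`Pair.mul` shows that `F₁` is a `Pair` with the measure
`μ₁ = μ + π⁻¹ |F₀| |∇θ| dA` (`volume.withDensity`, finite because `|∇θ| ≤ C`); note that `μ₁ {x} = μ {x}` for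
all points and `‖F₁‖ ≤ ‖F₀‖`, so `ρ⁻¹ ∫_{ball x ρ} ‖F₁‖ ≤ 20 μ{x} + ε` eventually (`cau_point`). Now repeat
the proof of `exists_pair` with `F₁` instead of `F₀` (sequence of atoms of `μ`, radii, bumps `Φ i`,
`pair_prod` applied to the pair `F₁`; `I = ∫ ‖F₁‖ > 0` by `hne`). The result `F` satisfies `‖F‖ ≤ ‖F₁‖`, so
`F = 0` off `X` and `F z = 0` where `θ z = 0`, in particular off `tsupport θ`. Then convert to `Dat` exactly as
in `Carp/Dat` (`X ∩ tsupport θ` is compact).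
-/

open Set Metric MeasureTheory Topology Filter

namespace CarU

open Pool.Agent.Carp

/-- the gradient of a nonnegative function vanishes where the function vanishes -/
private theorem la_fderiv_zero {Φ : ℂ → ℝ} (h01 : ∀ z, 0 ≤ Φ z ∧ Φ z ≤ 1) {z : ℂ} (hz : Φ z = 0) :
    fderiv ℝ Φ z = 0 := by
  apply IsLocalMin.fderiv_eq_zero
  apply Filter.Eventually.of_forall
  intro w
  rw [hz]
  exact (h01 w).1

private theorem la_grad {F : ℂ → ℂ} (hFm : Measurable F) (hF : Integrable F) {Φ : ℂ → ℝ}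
    {a : ℂ} {ρ C B : ℝ} (hρ : 0 < ρ) (hC : 0 < C) (hd : ContDiff ℝ 1 Φ)
    (h01 : ∀ z, 0 ≤ Φ z ∧ Φ z ≤ 1) (hout : ∀ z, z ∉ ball a ρ → Φ z = 0)
    (hgr : ∀ z, ‖fderiv ℝ Φ z‖ ≤ C / ρ) (hB : ρ⁻¹ * ∫ z in ball a ρ, ‖F z‖ ≤ B) :
    Integrable (fun z => ‖F z‖ * ‖fderiv ℝ Φ z‖) ∧
      ∫ z, ‖F z‖ * ‖fderiv ℝ Φ z‖ ≤ C * B := by
  have hcont : Continuous (fun z => ‖fderiv ℝ Φ z‖) := (hd.continuous_fderiv one_ne_zero).norm
  have hint : Integrable (fun z => ‖F z‖ * ‖fderiv ℝ Φ z‖) := by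
    refine Integrable.mono' (hF.norm.mul_const (C / ρ)) ?_ ?_
    · exact (hFm.norm.mul hcont.measurable).aestronglyMeasurable
    · refine Filter.Eventually.of_forall fun z => ?_
      rw [Real.norm_of_nonneg (by positivity)]
      exact mul_le_mul_of_nonneg_left (hgr z) (norm_nonneg _)
  refine ⟨hint, ?_⟩
  have h1 : ∫ z, ‖F z‖ * ‖fderiv ℝ Φ z‖ = ∫ z in ball a ρ, ‖F z‖ * ‖fderiv ℝ Φ z‖ := by
    symm
    apply setIntegral_eq_integral_of_forall_compl_eq_zero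
    intro z hz
    rw [la_fderiv_zero h01 (hout z hz), norm_zero, mul_zero]
  rw [h1]
  have h2 : ∫ z in ball a ρ, ‖F z‖ * ‖fderiv ℝ Φ z‖ ≤ ∫ z in ball a ρ, ‖F z‖ * (C / ρ) := by
    apply setIntegral_mono hint.integrableOn (hF.norm.mul_const (C / ρ)).integrableOn
    intro z
    exact mul_le_mul_of_nonneg_left (hgr z) (norm_nonneg _)
  refine h2.trans ?_
  rw [integral_mul_const]
  have h3 : (∫ z in ball a ρ, ‖F z‖) * (C / ρ) = C * (ρ⁻¹ * ∫ z in ball a ρ, ‖F z‖) := by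
    rw [div_eq_mul_inv]; ring
  rw [h3]
  exact mul_le_mul_of_nonneg_left hB hC.le

private theorem la_mass {F : ℂ → ℂ} (hF : Integrable F) {Φ : ℂ → ℝ}
    {a : ℂ} {ρ B : ℝ} (hd : ContDiff ℝ 1 Φ)
    (h01 : ∀ z, 0 ≤ Φ z ∧ Φ z ≤ 1) (hout : ∀ z, z ∉ ball a ρ → Φ z = 0)
    (hB : ∫ z in ball a ρ, ‖F z‖ ≤ B) :
    0 ≤ ∫ z, ‖F z‖ * Φ z ∧ ∫ z, ‖F z‖ * Φ z ≤ B := by
  have hint : Integrable (fun z => ‖F z‖ * Φ z) := by
    refine Integrable.mono' hF.norm ?_ ?_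
    · exact hF.norm.aestronglyMeasurable.mul hd.continuous.aestronglyMeasurable
    · refine Filter.Eventually.of_forall fun z => ?_
      rw [Real.norm_of_nonneg (mul_nonneg (norm_nonneg _) (h01 z).1)]
      exact mul_le_of_le_one_right (norm_nonneg _) (h01 z).2
  refine ⟨integral_nonneg fun z => mul_nonneg (norm_nonneg _) (h01 z).1, ?_⟩
  have h1 : ∫ z, ‖F z‖ * Φ z = ∫ z in ball a ρ, ‖F z‖ * Φ z := by
    symm
    apply setIntegral_eq_integral_of_forall_compl_eq_zero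
    intro z hz
    rw [hout z hz, mul_zero]
  rw [h1]
  refine le_trans ?_ hB
  apply setIntegral_mono hint.integrableOn hF.norm.integrableOn
  intro z
  exact mul_le_of_le_one_right (norm_nonneg _) (h01 z).2

private theorem la_atoms_summable {m : Measure ℂ} {g : ℂ → ℂ}
    (hg : Integrable g m) {a : ℕ → ℂ} (ha : Function.Injective a) :
    Summable (fun i => ∫ w in {a i}, ‖g w‖ ∂m) := by
  have h := hasSum_integral_iUnion (μ := m) (f := fun w => ‖g w‖) (s := fun i : ℕ => ({a i} : Set ℂ))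
    (fun i => measurableSet_singleton _) ?_ hg.norm.integrableOn
  · exact h.summable
  · intro i j hij
    rw [Function.onFun, disjoint_singleton]
    exact fun h => hij (ha h)

private theorem la_choose {F : ℂ → ℂ} {x : ℂ} {M ε δ : ℝ} (hM : 0 ≤ M) (hε : 0 < ε) (hδ : 0 < δ)
    (h : ∀ᶠ ρ : ℝ in 𝓝[>] 0, ρ⁻¹ * ∫ z in ball x ρ, ‖F z‖ ≤ M + ε) :
    ∃ ρ : ℝ, 0 < ρ ∧ (ρ⁻¹ * ∫ z in ball x ρ, ‖F z‖ ≤ M + ε) ∧ ∫ z in ball x ρ, ‖F z‖ ≤ δ := by
  have hp : 0 < δ / (M + ε) := by positivity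
  have h2 : ∀ᶠ ρ : ℝ in 𝓝[>] 0, ρ < δ / (M + ε) :=
    mem_nhdsWithin_of_mem_nhds (Iio_mem_nhds hp)
  have h3 : ∀ᶠ ρ : ℝ in 𝓝[>] 0, 0 < ρ := self_mem_nhdsWithin
  obtain ⟨ρ, h4, h5, h6⟩ := (h.and (h2.and h3)).exists
  refine ⟨ρ, h6, h4, ?_⟩
  rw [inv_mul_le_iff₀ h6] at h4
  refine h4.trans ?_
  rw [lt_div_iff₀ (by positivity)] at h5
  exact h5.le

private theorem la_mu_zero {m : Measure ℂ} {g : ℂ → ℂ} {x : ℂ}
    (h : m.withDensity (fun w => ‖g w‖ₑ) {x} = 0) : ∫ w in {x}, ‖g w‖ ∂m = 0 := by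
  rw [withDensity_apply _ (measurableSet_singleton x)] at h
  rw [integral_singleton]
  rw [lintegral_singleton] at h
  rw [mul_eq_zero] at h
  rcases h with h | h
  · have : g x = 0 := by simpa using h
    simp [this]
  · simp [Measure.real, h]

private theorem la_pair {F₀ : ℂ → ℂ} {μ : Measure ℂ} (hP : Pair F₀ μ)
    (θ : ℂ → ℝ) (hθ : ContDiff ℝ 1 θ) (h01 : ∀ z, 0 ≤ θ z ∧ θ z ≤ 1) (C : ℝ)
    (hC : ∀ z, ‖fderiv ℝ θ z‖ ≤ C) :
    ∃ μ₁ : Measure ℂ, Pair (fun z => (θ z : ℂ) * F₀ z) μ₁ := by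
  have hfin := hP.fin
  have hCn : 0 ≤ C := (norm_nonneg _).trans (hC 0)
  have hdc : Continuous (fun z => fderiv ℝ θ z) := hθ.continuous_fderiv one_ne_zero
  have hmw : Measurable (fun z => ENNReal.ofReal (Real.pi⁻¹) * (‖F₀ z‖ₑ * ‖fderiv ℝ θ z‖ₑ)) :=
    (hP.meas.enorm.mul hdc.measurable.enorm).const_mul _
  have hint : Integrable (fun z => ‖F₀ z‖ * ‖fderiv ℝ θ z‖) := by
    refine Integrable.mono' (hP.int.norm.mul_const C) ?_ ?_
    · exact (hP.meas.norm.mul hdc.norm.measurable).aestronglyMeasurable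
    · refine Filter.Eventually.of_forall fun z => ?_
      rw [Real.norm_of_nonneg (by positivity)]
      exact mul_le_mul_of_nonneg_left (hC z) (norm_nonneg _)
  have hfw : IsFiniteMeasure (volume.withDensity
      (fun z => ENNReal.ofReal (Real.pi⁻¹) * (‖F₀ z‖ₑ * ‖fderiv ℝ θ z‖ₑ))) := by
    apply isFiniteMeasure_withDensity
    have hmm : Measurable (fun z => ‖F₀ z‖ₑ * ‖fderiv ℝ θ z‖ₑ) :=
      hP.meas.enorm.mul hdc.measurable.enorm
    rw [lintegral_const_mul _ hmm]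
    apply ENNReal.mul_ne_top ENNReal.ofReal_ne_top
    have h2 := hint.2
    rw [HasFiniteIntegral] at h2
    have e : ∀ z, ‖‖F₀ z‖ * ‖fderiv ℝ θ z‖‖ₑ = ‖F₀ z‖ₑ * ‖fderiv ℝ θ z‖ₑ := by
      intro z
      rw [enorm_mul, enorm_norm, enorm_norm]
    simp_rw [e] at h2
    exact h2.ne
  refine ⟨μ + volume.withDensity
      (fun z => ENNReal.ofReal (Real.pi⁻¹) * (‖F₀ z‖ₑ * ‖fderiv ℝ θ z‖ₑ)), ?_, ?_, inferInstance, ?_⟩
  · exact (Complex.measurable_ofReal.comp hθ.continuous.measurable).mul hP.meas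
  · refine Integrable.mono' hP.int.norm ?_ ?_
    · exact ((Complex.measurable_ofReal.comp hθ.continuous.measurable).mul
        hP.meas).aestronglyMeasurable
    · refine Filter.Eventually.of_forall fun z => ?_
      rw [norm_mul, Complex.norm_real, Real.norm_eq_abs, abs_of_nonneg (h01 z).1]
      exact mul_le_of_le_one_left (norm_nonneg _) (h01 z).2
  · intro φ hφ hc
    refine (hP.mul hθ h01 hφ hc).trans (le_of_eq ?_)
    rw [integral_add_measure (PCAux.int_norm hφ.continuous hc) (PCAux.int_norm hφ.continuous hc),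
      mul_add]
    congr 1
    rw [integral_withDensity_eq_integral_toReal_smul hmw
      (Eventually.of_forall fun w => ENNReal.mul_lt_top ENNReal.ofReal_lt_top
        (ENNReal.mul_lt_top enorm_lt_top enorm_lt_top)), ← integral_const_mul]
    refine integral_congr_ae (Eventually.of_forall fun w => ?_)
    show ‖F₀ w‖ * ‖φ w‖ * ‖fderiv ℝ θ w‖ = Real.pi *
      ((ENNReal.ofReal (Real.pi⁻¹) * (‖F₀ w‖ₑ * ‖fderiv ℝ θ w‖ₑ)).toReal • ‖φ w‖)
    rw [ENNReal.toReal_mul, ENNReal.toReal_mul, toReal_enorm, toReal_enorm,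
      ENNReal.toReal_ofReal (inv_nonneg.2 Real.pi_pos.le), smul_eq_mul]
    field_simp

theorem dat_loc {X : Set ℂ} (hX : IsCompact X) (m : Measure ℂ) [IsFiniteMeasure m]
    (g : ℂ → ℂ) (hgm : Measurable g) (hg : Integrable g m)
    (h0 : ∀ z, z ∉ X → ∫ w, g w / (w - z) ∂m = 0) (hg0 : ¬ g =ᵐ[m] 0)
    (θ : ℂ → ℝ) (hθ : ContDiff ℝ 1 θ) (h01 : ∀ z, 0 ≤ θ z ∧ θ z ≤ 1) (C : ℝ)
    (hC : ∀ z, ‖fderiv ℝ θ z‖ ≤ C)
    (hne : ¬ (fun z => (θ z : ℂ) * Pool.Agent.Carp.cau m g z) =ᵐ[volume] 0) :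
    ∃ (F : ℂ → ℂ) (m1 : Measure ℂ), CarA.Dat (X ∩ tsupport θ) F m1 := by
  have hne' := hg0
  obtain ⟨hP0, hz0, -⟩ := cau_pair hX m g hgm hg h0 hg0
  obtain ⟨μ₁, hP⟩ := la_pair hP0 θ hθ h01 C hC
  set F₁ : ℂ → ℂ := fun z => (θ z : ℂ) * cau m g z with hF₁
  have hle1 : ∀ z, ‖F₁ z‖ ≤ ‖cau m g z‖ := by
    intro z
    rw [hF₁, norm_mul, Complex.norm_real, Real.norm_eq_abs, abs_of_nonneg (h01 z).1]
    exact mul_le_of_le_one_left (norm_nonneg _) (h01 z).2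
  have hballle : ∀ x r, ∫ z in ball x r, ‖F₁ z‖ ≤ ∫ z in ball x r, ‖cau m g z‖ := fun x r =>
    setIntegral_mono hP.int.norm.integrableOn hP0.int.norm.integrableOn hle1
  have hcp : ∀ (x : ℂ) {ε : ℝ}, 0 < ε → ∀ᶠ ρ : ℝ in 𝓝[>] 0,
      ρ⁻¹ * ∫ z in ball x ρ, ‖F₁ z‖ ≤ 20 * (∫ w in {x}, ‖g w‖ ∂m) + ε := by
    intro x ε hε
    have h3 : ∀ᶠ ρ : ℝ in 𝓝[>] 0, 0 < ρ := self_mem_nhdsWithin
    filter_upwards [cau_point (m := m) hgm hg x hε, h3] with r hr hr0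
    exact (mul_le_mul_of_nonneg_left (hballle x r) (inv_nonneg.2 hr0.le)).trans hr
  have hfin := hP.fin
  have hfin0 := hP0.fin
  obtain ⟨a, hainj, ha⟩ := exists_atoms (m.withDensity (fun w => ‖g w‖ₑ))
  obtain ⟨C', hC', hb⟩ := exists_bump
  have hI : 0 < ∫ z, ‖F₁ z‖ := by
    rcases (integral_nonneg (fun z => norm_nonneg (F₁ z)) :
      0 ≤ ∫ z, ‖F₁ z‖).lt_or_eq with h | h
    · exact h
    · exfalso
      apply hne
      have h1 := (integral_eq_zero_iff_of_nonneg (μ := (volume : Measure ℂ))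
        (f := fun z => ‖F₁ z‖) (fun z => norm_nonneg _) hP.int.norm).1 h.symm
      filter_upwards [h1] with z hz'
      exact norm_eq_zero.1 hz'
  set I : ℝ := ∫ z, ‖F₁ z‖ with hIdef
  have hM : ∀ i, 0 ≤ 20 * ∫ w in {a i}, ‖g w‖ ∂m := fun i =>
    mul_nonneg (by norm_num) (integral_nonneg fun _ => norm_nonneg _)
  have hch : ∀ i : ℕ, ∃ ρ : ℝ, 0 < ρ ∧
      (ρ⁻¹ * ∫ z in ball (a i) ρ, ‖F₁ z‖ ≤ 20 * (∫ w in {a i}, ‖g w‖ ∂m) + (1 / 2) ^ i) ∧
      ∫ z in ball (a i) ρ, ‖F₁ z‖ ≤ I / 4 * (1 / 2) ^ i := fun i =>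
    la_choose (hM i) (by positivity) (by positivity) (hcp (a i) (by positivity))
  choose ρ hρ hρ1 hρ2 using hch
  have hΦ := fun i => hb (a i) (ρ i) (hρ i)
  choose Φ hd h01' hone hout hgr using hΦ
  have hgrad := fun i => la_grad hP.meas hP.int (hρ i) hC' (hd i) (h01' i) (hout i) (hgr i) (hρ1 i)
  have hmass := fun i => la_mass hP.int (hd i) (h01' i) (hout i) (hρ2 i)
  have hgeo : Summable (fun i : ℕ => ((1 : ℝ) / 2) ^ i) := summable_geometric_two
  have hs : Summable (fun i => ∫ z, ‖F₁ z‖ * ‖fderiv ℝ (Φ i) z‖) := by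
    refine Summable.of_nonneg_of_le (fun i => integral_nonneg fun z => by positivity)
      (fun i => (hgrad i).2) ?_
    exact (((la_atoms_summable hg hainj).mul_left 20).add hgeo).mul_left C'
  have hgeo2 : Summable (fun i : ℕ => I / 4 * ((1 : ℝ) / 2) ^ i) := hgeo.mul_left _
  have ht : Summable (fun i => ∫ z, ‖F₁ z‖ * Φ i z) :=
    Summable.of_nonneg_of_le (fun i => (hmass i).1) (fun i => (hmass i).2) hgeo2
  have hlt : ∑' i, ∫ z, ‖F₁ z‖ * Φ i z < ∫ z, ‖F₁ z‖ := by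
    have h1 : ∑' i, ∫ z, ‖F₁ z‖ * Φ i z ≤ ∑' i : ℕ, I / 4 * ((1 : ℝ) / 2) ^ i :=
      ht.tsum_le_tsum (fun i => (hmass i).2) hgeo2
    have h2 : ∑' i : ℕ, I / 4 * ((1 : ℝ) / 2) ^ i = I / 4 * 2 := by
      rw [tsum_mul_left, tsum_geometric_two]
    rw [h2] at h1
    linarith
  obtain ⟨F', m', hP', hle, hzero, hn'⟩ := pair_prod hP Φ hd h01' (fun i => (hgrad i).1) hs ht hlt
  have hsm : ∀ x, Tendsto (fun ρ : ℝ => ρ⁻¹ * ∫ z in ball x ρ, ‖F' z‖) (𝓝[>] 0) (𝓝 0) := by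
    intro x
    by_cases hx : ∃ i, a i = x
    · obtain ⟨i, rfl⟩ := hx
      apply tendsto_const_nhds.congr'
      have hlt4 : ∀ᶠ r : ℝ in 𝓝[>] 0, r < ρ i / 4 :=
        mem_nhdsWithin_of_mem_nhds (Iio_mem_nhds (by have := hρ i; positivity))
      filter_upwards [hlt4] with r hr
      have : ∫ z in ball (a i) r, ‖F' z‖ = 0 := by
        apply setIntegral_eq_zero_of_forall_eq_zero
        intro z hz'
        rw [hzero i z (hone i z (ball_subset_ball hr.le hz')), norm_zero]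
      rw [this, mul_zero]
    · have hmu : m.withDensity (fun w => ‖g w‖ₑ) {x} = 0 := by
        by_contra hcon
        exact hx (ha x hcon)
      have hg0 := la_mu_zero hmu
      rw [Metric.tendsto_nhds]
      intro ε hε
      have h1 := hcp x (half_pos hε)
      rw [hg0, mul_zero, zero_add] at h1
      have h3 : ∀ᶠ ρ : ℝ in 𝓝[>] 0, 0 < ρ := self_mem_nhdsWithin
      filter_upwards [h1, h3] with r hr hr0
      have h4 : ∫ z in ball x r, ‖F' z‖ ≤ ∫ z in ball x r, ‖F₁ z‖ :=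
        setIntegral_mono hP'.int.norm.integrableOn hP.int.norm.integrableOn hle
      have h5 : 0 ≤ ∫ z in ball x r, ‖F' z‖ := integral_nonneg fun _ => norm_nonneg _
      rw [Real.dist_eq, sub_zero, abs_of_nonneg (by positivity)]
      calc r⁻¹ * ∫ z in ball x r, ‖F' z‖ ≤ r⁻¹ * ∫ z in ball x r, ‖F₁ z‖ :=
            mul_le_mul_of_nonneg_left h4 (by positivity)
        _ ≤ ε / 2 := hr
        _ < ε := by linarith
  have hoff : ∀ z, z ∉ X ∩ tsupport θ → F' z = 0 := by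
    intro z hz'
    have h := hle z
    have h0' : F₁ z = 0 := by
      by_cases hzX : z ∈ X
      · have : θ z = 0 := by
          by_contra hcon
          exact hz' ⟨hzX, subset_tsupport θ hcon⟩
        rw [hF₁]
        simp [this]
      · rw [hF₁]
        simp [hz0 z hzX]
    rw [h0', norm_zero] at h
    exact norm_le_zero_iff.1 h
  have hfin' := hP'.fin
  refine ⟨F', ENNReal.ofReal Real.pi • m', hX.inter_right (isClosed_tsupport θ), ?_, hP'.meas,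
    hP'.int, hoff, ?_, ?_, hn'⟩
  · exact Measure.smul_finite m' ENNReal.ofReal_ne_top
  · intro φ hφ hc
    rw [integral_smul_measure, ENNReal.toReal_ofReal Real.pi_pos.le, smul_eq_mul]
    exact hP'.wi φ hφ hc
  · intro x
    have h := hsm x
    have h2 : Tendsto (fun ρ : ℝ => 2 * ρ) (𝓝[>] 0) (𝓝[>] 0) := by
      rw [tendsto_nhdsWithin_iff]
      constructor
      · have : Tendsto (fun ρ : ℝ => 2 * ρ) (𝓝 0) (𝓝 (2 * 0)) := by
          exact (continuous_const.mul continuous_id).tendsto 0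
        rw [mul_zero] at this
        exact this.mono_left nhdsWithin_le_nhds
      · filter_upwards [self_mem_nhdsWithin] with ρ hρ
        have : (0 : ℝ) < ρ := hρ
        show (0 : ℝ) < 2 * ρ
        linarith
    have h3 := (h.comp h2).const_mul 2
    rw [mul_zero] at h3
    refine squeeze_zero' ?_ ?_ h3
    · filter_upwards [self_mem_nhdsWithin] with ρ hρ
      have hρ' : (0 : ℝ) < ρ := hρ
      exact div_nonneg (integral_nonneg fun _ => norm_nonneg _) hρ'.le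
    · filter_upwards [self_mem_nhdsWithin] with ρ hρ
      have hρ' : (0 : ℝ) < ρ := hρ
      have h4 : ∫ z in closedBall x ρ, ‖F' z‖ ≤ ∫ z in ball x (2 * ρ), ‖F' z‖ := by
        apply setIntegral_mono_set hP'.int.norm.integrableOn
        · exact Filter.Eventually.of_forall fun _ => norm_nonneg _
        · exact (closedBall_subset_ball (by linarith)).eventuallyLE
      show (∫ z in closedBall x ρ, ‖F' z‖) / ρ ≤ 2 * ((2 * ρ)⁻¹ * ∫ z in ball x (2 * ρ), ‖F' z‖)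
      have h5 : 2 * ((2 * ρ)⁻¹ * ∫ z in ball x (2 * ρ), ‖F' z‖) =
          (∫ z in ball x (2 * ρ), ‖F' z‖) / ρ := by
        field_simp
      rw [h5]
      gcongr

end CarU
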