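import Mathlib
import Pool.Agent.Carp.MB
import Pool.Agent.Carp.MC
import Pool.Agent.CarU.LocA

/-!
# CarU/LocB : from a functional to localised data

`Y` is a compact plane set, `L` a bounded functional on `C(Y, ℂ)` which vanishes on all functions
`w ↦ 1/(w - z)`, `z ∉ Y`, and `L u ≠ 0` for the restriction `u` of a function `h : ℂ → ℝ` of class `C¹` with
compact support contained in the set where `θ = 1`.

`exists_measure_bound` (Carp/MB) and `exists_density` (Carp/MC) for the compact space `Y` give `ν` and `g₀` with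
`L v = ∫ v g₀ dν` for all `v`. Push forward to the plane as in `Pool.Agent.Carp.exists_dat_of_inv`
(Carp/SA): `m = Measure.map (↑) ν`, `g = Function.extend (↑) g₀ 0`; then `∫ V g dm = L v` whenever
`v : C(Y, ℂ)` is the restriction of `V`. So `∫ g w / (w - z) dm = 0` for `z ∉ Y` (the function
`w ↦ 1/(w - z)` is continuous on `Y`), and `∫ h g dm = L u ≠ 0`; in particular `g` is not `0` a.e.
By `cau_weak` (Carp/PB): `∫ cau m g * dbar h = π ∫ h g dm ≠ 0`. Since `dbar h = 0` off `tsupport h`, where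
`θ = 1` on `tsupport h`, `∫ θ * cau m g * dbar h ≠ 0`, so `θ * cau m g` is not `0` a.e. Apply `dat_loc`.
-/

open Set Metric MeasureTheory Topology Filter

namespace CarU

theorem dat_of_functional {Y : Set ℂ} (hY : IsCompact Y) [CompactSpace Y]
    (L : C(Y, ℂ) →L[ℂ] ℂ)
    (h0 : ∀ z, z ∉ Y → ∀ v : C(Y, ℂ), (∀ y : Y, v y * ((y : ℂ) - z) = 1) → L v = 0)
    (h : ℂ → ℝ) (hh : ContDiff ℝ 1 h) (hc : HasCompactSupport h)
    (u : C(Y, ℂ)) (hu : ∀ y : Y, u y = (h y : ℂ)) (hLu : L u ≠ 0)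
    (θ : ℂ → ℝ) (hθ : ContDiff ℝ 1 θ) (h01 : ∀ z, 0 ≤ θ z ∧ θ z ≤ 1)
    (hθc : HasCompactSupport θ) (hθ1 : ∀ z ∈ tsupport h, θ z = 1) :
    ∃ (F : ℂ → ℂ) (m1 : Measure ℂ), CarA.Dat (Y ∩ tsupport θ) F m1 := by
  sorry

end CarU
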