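import Mathlib
import Pool.Agent.CarU.Appr

/-!
# CarU/MaxA : maximal sets of antisymmetry are convex with respect to the algebra

Let `E` be a set of antisymmetry, `x₀ ∈ E`. Let `K` be the union of all sets of antisymmetry containing
`x₀`. By `anti_sUnion` `K` is one of them, the largest one. By `anti_closure` `closure K ⊆ K`, so `K`
is closed.

Convexity: let `K' = {x | ∀ a ∈ A, ∃ y ∈ K, ‖a x‖ ≤ ‖a y‖}`, `K ⊆ K'`. `K'` is a set of antisymmetry: let `u` be
approximable on `K'` and real on `K'`. Then `u = c` on `K`. Let `x ∈ K'`, `ε > 0` and `a ∈ A` with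
`‖a - u‖ < ε` on `K'`. The element `a - c ∈ A` satisfies `‖a y - c‖ < ε` for `y ∈ K`, so
`‖a x - c‖ < ε` by definition of `K'`, and `‖u x - c‖ < 2ε`. So `u = c` on `K'`. As `x₀ ∈ K'`, `K' ⊆ K`.
-/

open Set Metric

namespace CarU

theorem exists_max_anti {X : Type*} [TopologicalSpace X] [CompactSpace X] [T2Space X]
    (A : Subalgebra ℂ C(X, ℂ)) {E : Set X} (hE : Anti A E) (hne : E.Nonempty) :
    ∃ K : Set X, IsClosed K ∧ E ⊆ K ∧ Anti A K ∧
      ∀ x, (∀ a ∈ A, ∃ y ∈ K, ‖a x‖ ≤ ‖a y‖) → x ∈ K := by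
  obtain ⟨x₀, hx₀⟩ := hne
  set K : Set X := ⋃₀ {K' | Anti A K' ∧ x₀ ∈ K'} with hK
  have hAK : Anti A K := anti_sUnion (x₀ := x₀) (fun K' hK' => hK')
  have hmax : ∀ K', Anti A K' → x₀ ∈ K' → K' ⊆ K := fun K' h1 h2 =>
    subset_sUnion_of_mem (show K' ∈ {K' | Anti A K' ∧ x₀ ∈ K'} from ⟨h1, h2⟩)
  have hEK : E ⊆ K := hmax E hE hx₀
  have hxK : x₀ ∈ K := hEK hx₀
  refine ⟨K, ?_, hEK, hAK, ?_⟩
  · have h1 : closure K ⊆ K := hmax _ (anti_closure hAK) (subset_closure hxK)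
    exact isClosed_of_closure_subset h1
  · set K' : Set X := {x | ∀ a ∈ A, ∃ y ∈ K, ‖a x‖ ≤ ‖a y‖} with hK'
    have hx₀K' : x₀ ∈ K' := fun a _ => ⟨x₀, hxK, le_rfl⟩
    have hKK' : K ⊆ K' := fun x hx a _ => ⟨x, hx, le_rfl⟩
    have hAK' : Anti A K' := by
      intro u hu him
      have hconst : ∀ y ∈ K, u y = u x₀ := fun y hy =>
        hAK u (hu.mono hKK') (fun z hz => him z (hKK' hz)) y hy x₀ hxK
      have key : ∀ x ∈ K', u x = u x₀ := by
        intro x hx
        by_contra hne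
        have hpos : 0 < ‖u x - u x₀‖ := norm_pos_iff.2 (sub_ne_zero.2 hne)
        obtain ⟨a, ha, h1⟩ := hu (‖u x - u x₀‖ / 2) (by linarith)
        have hb : a - algebraMap ℂ C(X, ℂ) (u x₀) ∈ A := A.sub_mem ha (A.algebraMap_mem _)
        obtain ⟨y, hy, h2⟩ := hx _ hb
        have e1 : ∀ z, (a - algebraMap ℂ C(X, ℂ) (u x₀)) z = a z - u x₀ := by
          intro z
          simp
        rw [e1, e1] at h2
        have h3 := h1 y (hKK' hy)
        rw [hconst y hy] at h3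
        have h4 := h1 x hx
        have h5 : ‖u x - u x₀‖ ≤ ‖a x - u x₀‖ + ‖a x - u x‖ := by
          have e2 : u x - u x₀ = (a x - u x₀) - (a x - u x) := by ring
          calc ‖u x - u x₀‖ = ‖(a x - u x₀) - (a x - u x)‖ := by rw [← e2]
            _ ≤ _ := norm_sub_le _ _
        linarith
      intro x hx y hy
      rw [key x hx, key y hy]
    exact fun x hx => hmax K' hAK' hx₀K' hx

end CarU
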