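import Mathlib
import Pool.Agent.CarU.Appr

/-!
# CarU/Ransf : existence of a nontrivial set of antisymmetry (Machado, Ransford)

Let `A` be a closed proper subalgebra of `C(X, ℂ)`, `f ∉ A`, `d = inf {‖f - a‖ | a ∈ A} > 0`. For a closed set
`E` write `P E` for: for every `a ∈ A` there is `x ∈ E` with `d ≤ ‖f x - a x‖` (i.e. the distance of
`f` to `A` on `E` is `≥ d`). `P univ` holds (`d ≤ ‖f - a‖`, the norm is attained, `X` is compact; `X` is
nonempty because `A ≠ ⊤`).

*Zorn.* The intersection `E` of a chain of closed sets with `P` satisfies `P`: for `a ∈ A` the sets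
`{x ∈ E' | d ≤ ‖f x - a x‖}`, `E'` in the chain, are compact, nonempty and directed, so they have a
common point. Let `E` be a minimal closed set with `P` (`zorn_superset_nonempty` or `zorn_superset`).

*`E` is nontrivial*: it is nonempty (`P` with `a = 0`). If `E = {x}`, the constant `a = f x ∈ A`
contradicts `P` (`d > 0`).

*`E` is a set of antisymmetry.* Let `u` be approximable on `E`, real on `E`, and not constant on `E`.
`u` is continuous on the compact set `E`; subtract a constant and multiply by a positive real number: we may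
assume `min u = 0`, `max u = 1` on `E` (real valued; `appr_const`, `Appr.add`, `Appr.mul`). Let
`E₁ = {x ∈ E | u x ≤ 2/3}`, `E₂ = {x ∈ E | u x ≥ 1/3}`: closed, strictly smaller than `E`. By
minimality there are `a₁, a₂ ∈ A` with `‖f x - a_i x‖ < d` on `E_i`; by compactness there is `η > 0` with
`‖f x - a_i x‖ ≤ d - η` on `E_i`. Let `k_n = (1 - u^n)^(2^n)`, `0 ≤ k_n ≤ 1` on `E`. For
`0 ≤ u ≤ 1/3`: `k_n ≥ 1 - 2^n u^n ≥ 1 - (2/3)^n` (Bernoulli). For `2/3 ≤ u ≤ 1`:
`k_n ≤ 1 / (1 + u^n)^(2^n) ≤ 1 / (2^n u^n) ≤ (3/4)^n`. So `v_n = k_n a₁ + (1 - k_n) a₂` satisfies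
on `E`, with `M` a bound for `‖f - a₁‖ + ‖f - a₂‖` on `E`:
where `1/3 ≤ u ≤ 2/3`: `‖f - v_n‖ ≤ k_n ‖f - a₁‖ + (1 - k_n) ‖f - a₂‖ ≤ d - η`; where `u ≤ 1/3`:
`≤ (d - η) + (2/3)^n M`; where `u ≥ 2/3`: `≤ (d - η) + (3/4)^n M`. For large `n` it is `≤ d - η/2` on `E`.
`v_n` is approximable on `E` (`Appr.pow`, `Appr.mul`, `Appr.add`, ...), so there is `a ∈ A` with
`‖a - v_n‖ < η/2` on `E`, hence `‖f - a‖ < d` on `E`: contradiction to `P E`.
-/

open Set Metric

namespace CarU

namespace RansfAux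

/-- a continuous function smaller than `d` on a compact set is at most `d - η` there -/
theorem exists_gap {X : Type*} [TopologicalSpace X] {K : Set X} (hK : IsCompact K) {h : X → ℝ}
    (hc : ContinuousOn h K) {d : ℝ} (hd : ∀ x ∈ K, h x < d) :
    ∃ η > 0, ∀ x ∈ K, h x ≤ d - η := by
  rcases K.eq_empty_or_nonempty with rfl | hne
  · exact ⟨1, one_pos, fun x hx => absurd hx (notMem_empty x)⟩
  · obtain ⟨p, hp, hmax⟩ := hK.exists_isMaxOn hne hc
    refine ⟨d - h p, sub_pos.mpr (hd p hp), fun x hx => ?_⟩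
    have : h x ≤ h p := hmax hx
    linarith

theorem kernel_lower {t : ℝ} (ht1 : t ≤ 1) (N : ℕ) :
    1 - N * t ≤ (1 - t) ^ N := by
  have := one_add_mul_le_pow (a := -t) (by linarith) N
  have e : (1 : ℝ) + -t = 1 - t := by ring
  rw [e] at this
  linarith

theorem kernel_upper {t : ℝ} (ht0 : 0 ≤ t) (ht1 : t ≤ 1) (N : ℕ) :
    (1 - t) ^ N * (N * t) ≤ 1 := by
  have h1 : 1 + N * t ≤ (1 + t) ^ N := one_add_mul_le_pow (by linarith) N
  have h2 : 0 ≤ (1 - t) ^ N := pow_nonneg (by linarith) N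
  calc (1 - t) ^ N * (N * t) ≤ (1 - t) ^ N * (1 + t) ^ N := by
        apply mul_le_mul_of_nonneg_left _ h2
        linarith
    _ = (1 - t ^ 2) ^ N := by rw [← mul_pow]; congr 1; ring
    _ ≤ 1 := by
        apply pow_le_one₀
        · nlinarith
        · nlinarith [sq_nonneg t]

end RansfAux

open RansfAux in
theorem exists_anti {X : Type*} [TopologicalSpace X] [CompactSpace X] [T2Space X]
    (A : Subalgebra ℂ C(X, ℂ)) (hA : IsClosed (A : Set C(X, ℂ))) (hne : A ≠ ⊤) :
    ∃ E : Set X, IsClosed E ∧ E.Nontrivial ∧ Anti A E := by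
  obtain ⟨f, hf⟩ : ∃ f : C(X, ℂ), f ∉ A := by
    by_contra hcon
    push Not at hcon
    exact hne (by rw [eq_top_iff]; exact fun x _ => hcon x)
  obtain ⟨d, hd⟩ : ∃ d : ℝ, d = infDist f (A : Set C(X, ℂ)) := ⟨_, rfl⟩
  have hd0 : 0 < d := by
    rw [hd]
    exact (hA.notMem_iff_infDist_pos ⟨0, A.zero_mem⟩).mp hf
  have hdle : ∀ a ∈ A, d ≤ ‖f - a‖ := by
    intro a ha
    rw [hd, ← dist_eq_norm]
    exact infDist_le_dist_of_mem ha
  obtain ⟨P, hP⟩ : ∃ P : Set X → Prop, ∀ E, P E ↔ ∀ a ∈ A, ∃ x ∈ E, d ≤ ‖f x - a x‖ :=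
    ⟨_, fun _ => Iff.rfl⟩
  have hPuniv : P univ := by
    rw [hP]
    intro a ha
    by_contra hcon
    push Not at hcon
    have h1 : ‖f - a‖ < d := by
      rw [ContinuousMap.norm_lt_iff _ hd0]
      intro x
      exact hcon x (mem_univ x)
    exact absurd (hdle a ha) (not_le.mpr h1)
  -- Zorn
  obtain ⟨E, hE⟩ : ∃ E : Set X, Minimal (fun E => E ∈ {E : Set X | IsClosed E ∧ P E}) E := by
    apply zorn_superset
    intro c hc hchain
    rcases c.eq_empty_or_nonempty with rfl | hcne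
    · exact ⟨univ, ⟨isClosed_univ, hPuniv⟩, fun s hs => absurd hs (notMem_empty s)⟩
    · refine ⟨⋂₀ c, ⟨isClosed_sInter fun s hs => (hc hs).1, ?_⟩, fun s hs => sInter_subset_of_mem hs⟩
      rw [hP]
      intro a ha
      have hclosed : IsClosed {x : X | d ≤ ‖f x - a x‖} :=
        isClosed_le continuous_const (f.continuous.sub a.continuous).norm
      have : Nonempty c := hcne.to_subtype
      have hne' : (⋂ i : c, ((i : Set X) ∩ {x : X | d ≤ ‖f x - a x‖})).Nonempty := by
        apply IsCompact.nonempty_iInter_of_directed_nonempty_isCompact_isClosed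
        · intro i j
          rcases hchain.total i.2 j.2 with h | h
          · exact ⟨i, Subset.rfl, inter_subset_inter_left _ h⟩
          · exact ⟨j, inter_subset_inter_left _ h, Subset.rfl⟩
        · intro i
          obtain ⟨x, hx, hx'⟩ := (hP _).mp (hc i.2).2 a ha
          exact ⟨x, hx, hx'⟩
        · intro i
          exact ((hc i.2).1.inter hclosed).isCompact
        · intro i
          exact (hc i.2).1.inter hclosed
      obtain ⟨x, hx⟩ := hne'
      rw [mem_iInter] at hx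
      refine ⟨x, ?_, (hx ⟨_, hcne.some_mem⟩).2⟩
      rw [mem_sInter]
      intro t ht
      exact (hx ⟨t, ht⟩).1
  have hEc : IsClosed E := hE.prop.1
  have hEP := (hP E).mp hE.prop.2
  have hEne : E.Nonempty := by
    obtain ⟨x, hx, _⟩ := hEP 0 A.zero_mem
    exact ⟨x, hx⟩
  refine ⟨E, hEc, ?_, ?_⟩
  · -- nontrivial
    by_contra hnt
    rw [Set.not_nontrivial_iff] at hnt
    obtain ⟨p, hp⟩ := hEne
    obtain ⟨x, hx, hx'⟩ := hEP (algebraMap ℂ C(X, ℂ) (f p)) (A.algebraMap_mem _)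
    rw [hnt hx hp] at hx'
    have e : (algebraMap ℂ C(X, ℂ) (f p)) p = f p := rfl
    rw [e, sub_self, norm_zero] at hx'
    linarith
  · -- antisymmetric
    intro u hu hre x₀ hx₀ y₀ hy₀
    by_contra hxy
    have hcomp : IsCompact E := hEc.isCompact
    have hcu : ContinuousOn (fun x => (u x).re) E :=
      Complex.continuous_re.comp_continuousOn (appr_continuousOn hu)
    obtain ⟨p, hp, hpmin⟩ := hcomp.exists_isMinOn hEne hcu
    obtain ⟨q, hq, hqmax⟩ := hcomp.exists_isMaxOn hEne hcu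
    have hpmin' : ∀ x ∈ E, (u p).re ≤ (u x).re := fun x hx => hpmin hx
    have hqmax' : ∀ x ∈ E, (u x).re ≤ (u q).re := fun x hx => hqmax hx
    have hlt : (u p).re < (u q).re := by
      by_contra hcon
      push Not at hcon
      apply hxy
      apply Complex.ext
      · have a1 := hpmin' x₀ hx₀
        have a2 := hqmax' x₀ hx₀
        have a3 := hpmin' y₀ hy₀
        have a4 := hqmax' y₀ hy₀
        linarith
      · rw [hre x₀ hx₀, hre y₀ hy₀]
    obtain ⟨m, hm⟩ : ∃ m : ℝ, m = (u p).re := ⟨_, rfl⟩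
    obtain ⟨M, hM⟩ : ∃ M : ℝ, M = (u q).re := ⟨_, rfl⟩
    rw [← hm, ← hM] at hlt
    have hMm : 0 < M - m := sub_pos.mpr hlt
    obtain ⟨g, hg⟩ : ∃ g : X → ℝ, ∀ x, g x = ((u x).re - m) / (M - m) := ⟨_, fun _ => rfl⟩
    have hgc : ContinuousOn g E := by
      have : g = fun x => ((u x).re - m) / (M - m) := funext hg
      rw [this]
      exact (hcu.sub continuousOn_const).div_const _
    have hg0 : ∀ x ∈ E, 0 ≤ g x := by
      intro x hx
      rw [hg]
      apply div_nonneg _ hMm.le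
      have := hpmin' x hx
      rw [← hm] at this
      linarith
    have hg1 : ∀ x ∈ E, g x ≤ 1 := by
      intro x hx
      rw [hg, div_le_one hMm]
      have := hqmax' x hx
      rw [← hM] at this
      linarith
    have hgp : g p = 0 := by rw [hg, ← hm, sub_self, zero_div]
    have hgq : g q = 1 := by rw [hg, ← hM, div_self hMm.ne']
    -- the approximable version
    have hw : Appr A E (fun x => ((g x : ℝ) : ℂ)) := by
      have h1 : Appr A E (fun x => (u x + (-(m : ℂ))) * (((M - m)⁻¹ : ℝ) : ℂ)) :=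
        (hu.add (appr_const (-(m : ℂ)))).mul (appr_const _)
      intro ε hε
      obtain ⟨a, ha, h2⟩ := h1 ε hε
      refine ⟨a, ha, fun x hx => ?_⟩
      have e : ((g x : ℝ) : ℂ) = (u x + (-(m : ℂ))) * (((M - m)⁻¹ : ℝ) : ℂ) := by
        have e2 : u x = (((u x).re : ℝ) : ℂ) := by
          apply Complex.ext
          · simp
          · simp [hre x hx]
        rw [hg, e2]
        push_cast
        simp only [Complex.ofReal_re]
        rw [div_eq_mul_inv, sub_eq_add_neg]
      simp only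
      rw [e]
      exact h2 x hx
    -- the two pieces
    have hE1c : IsClosed (E ∩ g ⁻¹' Iic (2 / 3)) := hgc.preimage_isClosed_of_isClosed hEc isClosed_Iic
    have hE2c : IsClosed (E ∩ g ⁻¹' Ici (1 / 3)) := hgc.preimage_isClosed_of_isClosed hEc isClosed_Ici
    have hn1 : ¬ P (E ∩ g ⁻¹' Iic (2 / 3)) := by
      intro h
      have := hE.le_of_le (y := E ∩ g ⁻¹' Iic (2 / 3)) ⟨hE1c, h⟩ inter_subset_left
      have h2 := (this hq).2
      simp only [mem_preimage, mem_Iic, hgq] at h2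
      norm_num at h2
    have hn2 : ¬ P (E ∩ g ⁻¹' Ici (1 / 3)) := by
      intro h
      have := hE.le_of_le (y := E ∩ g ⁻¹' Ici (1 / 3)) ⟨hE2c, h⟩ inter_subset_left
      have h2 := (this hp).2
      simp only [mem_preimage, mem_Ici, hgp] at h2
      norm_num at h2
    rw [hP] at hn1 hn2
    push Not at hn1 hn2
    obtain ⟨a₁, ha₁, hb₁⟩ := hn1
    obtain ⟨a₂, ha₂, hb₂⟩ := hn2
    obtain ⟨η₁, hη₁, hc₁⟩ := exists_gap (h := fun x => ‖f x - a₁ x‖) hE1c.isCompact
      (f.continuous.sub a₁.continuous).norm.continuousOn hb₁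
    obtain ⟨η₂, hη₂, hc₂⟩ := exists_gap (h := fun x => ‖f x - a₂ x‖) hE2c.isCompact
      (f.continuous.sub a₂.continuous).norm.continuousOn hb₂
    obtain ⟨η, hη⟩ : ∃ η : ℝ, η = min η₁ η₂ := ⟨_, rfl⟩
    have hη0 : 0 < η := by rw [hη]; exact lt_min hη₁ hη₂
    have hηa : η ≤ η₁ := by rw [hη]; exact min_le_left _ _
    have hηb : η ≤ η₂ := by rw [hη]; exact min_le_right _ _
    obtain ⟨B, hB⟩ : ∃ B : ℝ, B = ‖f - a₁‖ + ‖f - a₂‖ := ⟨_, rfl⟩
    have hB0 : 0 ≤ B := by rw [hB]; positivity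
    have hB1 : ∀ x, ‖f x - a₁ x‖ ≤ B := by
      intro x
      have := (f - a₁).norm_coe_le_norm x
      rw [ContinuousMap.sub_apply] at this
      rw [hB]
      linarith [norm_nonneg (f - a₂)]
    have hB2 : ∀ x, ‖f x - a₂ x‖ ≤ B := by
      intro x
      have := (f - a₂).norm_coe_le_norm x
      rw [ContinuousMap.sub_apply] at this
      rw [hB]
      linarith [norm_nonneg (f - a₁)]
    obtain ⟨n, hn⟩ : ∃ n : ℕ, (3 / 4 : ℝ) ^ n * B < η / 2 := by
      have h1 : Filter.Tendsto (fun n : ℕ => (3 / 4 : ℝ) ^ n * B) Filter.atTop (nhds (0 * B)) :=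
        (tendsto_pow_atTop_nhds_zero_of_lt_one (by norm_num) (by norm_num)).mul_const B
      rw [zero_mul] at h1
      exact (h1.eventually (gt_mem_nhds (half_pos hη0))).exists
    obtain ⟨k, hk⟩ : ∃ k : X → ℝ, ∀ x, k x = (1 - g x ^ n) ^ (2 ^ n) := ⟨_, fun _ => rfl⟩
    have hgn0 : ∀ x ∈ E, 0 ≤ g x ^ n := fun x hx => pow_nonneg (hg0 x hx) n
    have hgn1 : ∀ x ∈ E, g x ^ n ≤ 1 := fun x hx => pow_le_one₀ (hg0 x hx) (hg1 x hx)
    have hk0 : ∀ x ∈ E, 0 ≤ k x := by
      intro x hx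
      rw [hk]
      exact pow_nonneg (by linarith [hgn1 x hx]) _
    have hk1 : ∀ x ∈ E, k x ≤ 1 := by
      intro x hx
      rw [hk]
      exact pow_le_one₀ (by linarith [hgn1 x hx]) (by linarith [hgn0 x hx])
    have hklow : ∀ x ∈ E, g x ≤ 1 / 3 → 1 - k x ≤ (3 / 4) ^ n := by
      intro x hx h3
      have h4 := kernel_lower (hgn1 x hx) (2 ^ n)
      rw [← hk] at h4
      have h5 : ((2 ^ n : ℕ) : ℝ) * g x ^ n ≤ (3 / 4) ^ n := by
        push_cast
        rw [← mul_pow]
        apply pow_le_pow_left₀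
        · linarith [hg0 x hx]
        · linarith
      linarith
    have hkup : ∀ x ∈ E, 2 / 3 ≤ g x → k x ≤ (3 / 4) ^ n := by
      intro x hx h3
      have h4 := kernel_upper (hgn0 x hx) (hgn1 x hx) (2 ^ n)
      rw [← hk] at h4
      have h5 : (4 / 3 : ℝ) ^ n ≤ ((2 ^ n : ℕ) : ℝ) * g x ^ n := by
        push_cast
        rw [← mul_pow]
        apply pow_le_pow_left₀
        · norm_num
        · linarith
      have h6 : k x * (4 / 3) ^ n ≤ 1 := (mul_le_mul_of_nonneg_left h5 (hk0 x hx)).trans h4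
      have h7 : (3 / 4 : ℝ) ^ n * (4 / 3) ^ n = 1 := by
        rw [← mul_pow]
        norm_num
      have h8 : (0 : ℝ) < (4 / 3) ^ n := by positivity
      by_contra hcon
      push Not at hcon
      have := mul_lt_mul_of_pos_right hcon h8
      rw [h7] at this
      linarith
    have hv : Appr A E (fun x => ((1 + (-1) * ((g x : ℝ) : ℂ) ^ n) ^ (2 ^ n)) * a₁ x +
        (1 + (-1) * ((1 + (-1) * ((g x : ℝ) : ℂ) ^ n) ^ (2 ^ n))) * a₂ x) := by
      have h1 : Appr A E (fun x => (1 + (-1) * ((g x : ℝ) : ℂ) ^ n) ^ (2 ^ n)) :=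
        ((appr_const 1).add ((appr_const (-1)).mul (hw.pow n))).pow (2 ^ n)
      have h2 : Appr A E (fun x => 1 + (-1) * (1 + (-1) * ((g x : ℝ) : ℂ) ^ n) ^ (2 ^ n)) :=
        (appr_const 1).add ((appr_const (-1)).mul h1)
      exact (h1.mul (appr_mem ha₁)).add (h2.mul (appr_mem ha₂))
    obtain ⟨a, ha, hva⟩ := hv (η / 2) (half_pos hη0)
    obtain ⟨x, hx, hx'⟩ := hEP a ha
    have hvx := hva x hx
    simp only at hvx
    have ek : (1 + (-1) * ((g x : ℝ) : ℂ) ^ n) ^ (2 ^ n) = ((k x : ℝ) : ℂ) := by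
      rw [hk]
      push_cast
      congr 1
      ring
    rw [ek] at hvx
    -- the estimate
    have hest : ‖f x - (((k x : ℝ) : ℂ) * a₁ x + (1 + (-1) * ((k x : ℝ) : ℂ)) * a₂ x)‖ ≤
        k x * ‖f x - a₁ x‖ + (1 - k x) * ‖f x - a₂ x‖ := by
      have e : f x - (((k x : ℝ) : ℂ) * a₁ x + (1 + (-1) * ((k x : ℝ) : ℂ)) * a₂ x) =
          ((k x : ℝ) : ℂ) * (f x - a₁ x) + ((1 - k x : ℝ) : ℂ) * (f x - a₂ x) := by
        push_cast
        ring
      rw [e]
      refine (norm_add_le _ _).trans ?_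
      rw [norm_mul, norm_mul, Complex.norm_real, Complex.norm_real,
        Real.norm_of_nonneg (hk0 x hx), Real.norm_of_nonneg (by linarith [hk1 x hx])]
    have hmain : k x * ‖f x - a₁ x‖ + (1 - k x) * ‖f x - a₂ x‖ ≤ d - η / 2 := by
      have k0 := hk0 x hx
      have k1 := hk1 x hx
      have p0 : 0 ≤ 1 - k x := by linarith
      have n1 := norm_nonneg (f x - a₁ x)
      have n2 := norm_nonneg (f x - a₂ x)
      have hpow0 : (0 : ℝ) ≤ (3 / 4) ^ n := by positivity
      by_cases hlo : g x < 1 / 3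
      · have h1 : ‖f x - a₁ x‖ ≤ d - η := by
          have := hc₁ x ⟨hx, by simp only [mem_preimage, mem_Iic]; linarith⟩
          linarith
        have h2 := hklow x hx hlo.le
        have h3 : k x * ‖f x - a₁ x‖ ≤ ‖f x - a₁ x‖ := by nlinarith
        have h4 : (1 - k x) * ‖f x - a₂ x‖ ≤ (3 / 4) ^ n * B :=
          mul_le_mul h2 (hB2 x) n2 hpow0
        linarith
      · by_cases hhi : 2 / 3 < g x
        · have h1 : ‖f x - a₂ x‖ ≤ d - η := by
            have := hc₂ x ⟨hx, by simp only [mem_preimage, mem_Ici]; linarith⟩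
            linarith
          have h2 := hkup x hx hhi.le
          have h3 : (1 - k x) * ‖f x - a₂ x‖ ≤ ‖f x - a₂ x‖ := by nlinarith
          have h4 : k x * ‖f x - a₁ x‖ ≤ (3 / 4) ^ n * B :=
            mul_le_mul h2 (hB1 x) n1 hpow0
          linarith
        · have h1 : ‖f x - a₁ x‖ ≤ d - η := by
            have := hc₁ x ⟨hx, by simp only [mem_preimage, mem_Iic]; linarith⟩
            linarith
          have h2 : ‖f x - a₂ x‖ ≤ d - η := by
            have := hc₂ x ⟨hx, by simp only [mem_preimage, mem_Ici]; linarith⟩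
            linarith
          have h3 : k x * ‖f x - a₁ x‖ ≤ k x * (d - η) := mul_le_mul_of_nonneg_left h1 k0
          have h4 : (1 - k x) * ‖f x - a₂ x‖ ≤ (1 - k x) * (d - η) :=
            mul_le_mul_of_nonneg_left h2 p0
          have h5 : k x * (d - η) + (1 - k x) * (d - η) = d - η := by ring
          linarith
    have hfin : ‖f x - a x‖ < d := by
      have e : f x - a x =
          (f x - (((k x : ℝ) : ℂ) * a₁ x + (1 + (-1) * ((k x : ℝ) : ℂ)) * a₂ x)) -
          (a x - (((k x : ℝ) : ℂ) * a₁ x + (1 + (-1) * ((k x : ℝ) : ℂ)) * a₂ x)) := by ring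
      rw [e]
      refine (norm_sub_le _ _).trans_lt ?_
      linarith
    linarith

end CarU
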