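import Mathlib
import Pool.Agent.CarU.Base
import Pool.Agent.Carp.SA

/-!
# CarU/RatC : `R(X) ≠ C(X)` implies that `X` contains a carpet

The set `S` of the continuous functions on `X` which are restrictions of rational functions `p / q`
with `q` without zeros on `X` is a subalgebra of `C(X, ℂ)`; its closure is a closed subalgebra `B`
(`Subalgebra.topologicalClosure`). It contains `1/(w - z)`, `z ∉ X` (`p = 1`, `q = X - C z`). If the closure of
`S` is not everything, then `B ≠ ⊤`, and `Pool.Agent.Carp.exists_dat_of_inv` (file Carp/SA) gives data;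
`hasCarpet_of_dat`.
-/

open Set Metric MeasureTheory

namespace CarU

/-- the algebra of the rational functions with poles off `X` -/
def RatC_alg (X : Set ℂ) : Subalgebra ℂ C(X, ℂ) where
  carrier := {f : C(X, ℂ) | ∃ p q : Polynomial ℂ, (∀ w ∈ X, q.eval w ≠ 0) ∧
      ∀ w : X, f w = p.eval (w : ℂ) / q.eval (w : ℂ)}
  mul_mem' := by
    rintro f g ⟨p, q, hq, hf⟩ ⟨p', q', hq', hg⟩
    refine ⟨p * p', q * q', fun w hw => ?_, fun w => ?_⟩
    · rw [Polynomial.eval_mul]
      exact mul_ne_zero (hq w hw) (hq' w hw)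
    · rw [ContinuousMap.mul_apply, hf, hg, Polynomial.eval_mul, Polynomial.eval_mul, div_mul_div_comm]
  add_mem' := by
    rintro f g ⟨p, q, hq, hf⟩ ⟨p', q', hq', hg⟩
    refine ⟨p * q' + q * p', q * q', fun w hw => ?_, fun w => ?_⟩
    · rw [Polynomial.eval_mul]
      exact mul_ne_zero (hq w hw) (hq' w hw)
    · rw [ContinuousMap.add_apply, hf, hg, Polynomial.eval_mul, Polynomial.eval_add,
        Polynomial.eval_mul, Polynomial.eval_mul, div_add_div _ _ (hq w w.2) (hq' w w.2)]
  algebraMap_mem' := by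
    intro c
    refine ⟨Polynomial.C c, 1, fun w _ => ?_, fun w => ?_⟩
    · simp
    · simp

theorem RatC_inv {X : Set ℂ} [CompactSpace X] {z : ℂ} (hz : z ∉ X) :
    ∃ h ∈ RatC_alg X, ∀ y : X, h y * ((y : ℂ) - z) = 1 := by
  have hne : ∀ y : X, (y : ℂ) - z ≠ 0 := fun y h0 => hz (sub_eq_zero.1 h0 ▸ y.2)
  refine ⟨⟨fun y : X => ((y : ℂ) - z)⁻¹, ?_⟩, ⟨1, Polynomial.X - Polynomial.C z, ?_, ?_⟩, ?_⟩
  · exact Continuous.inv₀ (by fun_prop) hne
  · intro w hw
    simpa using hne ⟨w, hw⟩
  · intro w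
    simp
  · intro y
    exact inv_mul_cancel₀ (hne y)

theorem rat_thm (X : Set ℂ) (hX : IsCompact X)
    (h : closure {f : C(X, ℂ) | ∃ p q : Polynomial ℂ, (∀ w ∈ X, q.eval w ≠ 0) ∧
      ∀ w : X, f w = p.eval (w : ℂ) / q.eval (w : ℂ)} ≠ univ) :
    HasCarpet X := by
  have hc : CompactSpace X := isCompact_iff_compactSpace.1 hX
  have hB : IsClosed ((RatC_alg X).topologicalClosure : Set C(X, ℂ)) :=
    (RatC_alg X).isClosed_topologicalClosure
  have hne : (RatC_alg X).topologicalClosure ≠ ⊤ := by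
    intro htop
    apply h
    have h1 : ((RatC_alg X).topologicalClosure : Set C(X, ℂ)) = univ := by
      rw [htop]
      rfl
    rw [Subalgebra.topologicalClosure_coe] at h1
    exact h1
  obtain ⟨F, m, hd⟩ := Pool.Agent.Carp.exists_dat_of_inv hX (RatC_alg X).topologicalClosure hB hne
    (fun z hz => by
      obtain ⟨g, hg, hg1⟩ := RatC_inv hz
      exact ⟨g, (RatC_alg X).le_topologicalClosure hg, hg1⟩)
  exact hasCarpet_of_dat hd

end CarU
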