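import Mathlib
import Pool.Agent.CarU.Base
import Pool.Agent.CarU.Ransf
import Pool.Agent.CarU.MaxA
import Pool.Agent.CarU.InvK
import Pool.Agent.CarU.AntiC
import Pool.Agent.Carp.LA
import Pool.Agent.Carp.SD

/-!
# CarU/Struct : a structure theorem for all natural uniform algebras
-/

open Set Metric MeasureTheory

namespace CarU

theorem structure_thm {X : Type*} [TopologicalSpace X] [CompactSpace X] [T2Space X]
    (A : Subalgebra ℂ C(X, ℂ)) (hA : IsClosed (A : Set C(X, ℂ))) (hne : A ≠ ⊤)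
    (hnat : ∀ φ : A →ₐ[ℂ] ℂ, ∃ x : X, ∀ f : A, φ f = (f : C(X, ℂ)) x) :
    ∃ K : Set X, IsClosed K ∧ K.Nontrivial ∧
      ∀ f ∈ A, (∃ x ∈ K, ∃ y ∈ K, f x ≠ f y) →
        ∀ U : Set ℂ, IsOpen U → (f '' K ∩ U).Nonempty →
          ∀ Z : ℕ → Set ℂ, (∀ i, IsCompact (Z i)) → f '' K ∩ U ⊆ ⋃ i, Z i →
            ∃ i, volume (f '' K ∩ U ∩ Z i) ≠ 0 ∧ HasCarpet (f '' K ∩ U ∩ Z i) := by
  obtain ⟨E, -, hEn, hEA⟩ := exists_anti A hA hne
  obtain ⟨K, hKc, hEK, hKA, hKconv⟩ := exists_max_anti A hEA hEn.nonempty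
  have hKn : K.Nontrivial := hEn.mono hEK
  refine ⟨K, hKc, hKn, fun f hf hfn U hU hUne Z hZ hcov => ?_⟩
  obtain ⟨Y, F, m, hY, hYsub, hdat⟩ := anti_dat A hKc hKA f
    (fun z hz => exists_inv_on A hnat hKc hKn.nonempty hKconv hf hz) hfn hU hUne
  obtain ⟨i, F', m', h⟩ := Pool.Agent.Carp.dat_localize hdat (fun i => Y ∩ Z i)
    (fun i => hY.inter (hZ i)) (fun y hy => by
      obtain ⟨i, hi⟩ := mem_iUnion.mp (hcov (hYsub hy))
      exact mem_iUnion.mpr ⟨i, hy, hi⟩)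
  have hsub : Y ∩ Z i ⊆ f '' K ∩ U ∩ Z i := fun y hy => ⟨hYsub hy.1, hy.2⟩
  refine ⟨i, fun h0 => ?_, (hasCarpet_of_dat h).mono hsub⟩
  exact Pool.Agent.Carp.not_dat_of_null (measure_mono_null hsub h0) F' m' h

end CarU
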