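import Mathlib
import Pool.Agent.CarU.Struct

/-!
# CarU/Sigma : algebras containing a function which is injective on the sets of a countable cover

Let `K` be from `structure_thm`. 1. `f` is not constant on `K`. Suppose `f = t` on `K`; then `K ⊆ {x | f x = t}` is
countable. Choose `x ≠ y` in `K` and `g ∈ A` with `g x ≠ g y` (`hsep`). `structure_thm` for `g`, `U = univ`,
`Z i = g '' K` (compact): `volume (g '' K) ≠ 0`, but `g '' K` is countable, contradiction.
2. `structure_thm` for `f`, `U = univ`, `Z i = f '' (K ∩ C i)`: these are compact and cover `f '' K`. For some `i`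
the set `f '' K ∩ Z i ⊆ f '' C i` has positive area, so `f` is injective on `C i`, and `HasCarpet (f '' C i)` with
a map `c`. `f` is a homeomorphism of the compact set `C i` onto `f '' C i`; let `k` be the inverse
(`Function.invFunOn f (C i)`), continuous on `f '' C i` (for closed `F ⊆ X`:
`f '' C i ∩ k ⁻¹' F = f '' (C i ∩ F)` is compact). The map `k ∘ c` shows `HasCarpet (C i)`, so
`HasCarpet (univ : Set X)`.
-/

open Set Metric MeasureTheory

namespace CarU

theorem sigma_inv_cont {X : Type*} [TopologicalSpace X] [CompactSpace X] [T2Space X] [Nonempty X]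
    (f : C(X, ℂ)) (C : Set X) (hC : IsClosed C) (hinj : InjOn f C) :
    ContinuousOn (Function.invFunOn f C) (f '' C) := by
  rw [continuousOn_iff_isClosed]
  intro t ht
  refine ⟨f '' (C ∩ t), ((hC.inter ht).isCompact.image f.continuous).isClosed, ?_⟩
  have hl : ∀ x ∈ C, Function.invFunOn f C (f x) = x := fun x hx =>
    hinj.leftInvOn_invFunOn hx
  ext y
  constructor
  · rintro ⟨h1, x, hx, rfl⟩
    refine ⟨⟨x, ⟨hx, ?_⟩, rfl⟩, ⟨x, hx, rfl⟩⟩
    have : Function.invFunOn f C (f x) ∈ t := h1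
    rwa [hl x hx] at this
  · rintro ⟨⟨x, ⟨hx, hxt⟩, rfl⟩, h2⟩
    refine ⟨?_, h2⟩
    show Function.invFunOn f C (f x) ∈ t
    rwa [hl x hx]

theorem sigma_hasCarpet {X : Type*} [TopologicalSpace X] [CompactSpace X] [T2Space X]
    (f : C(X, ℂ)) (C : Set X) (hC : IsClosed C) (hinj : InjOn f C)
    (h : HasCarpet (f '' C)) (hX : Nonempty X) : HasCarpet C := by
  obtain ⟨c, h1, h2, h3⟩ := h
  have hr : ∀ y ∈ f '' C, f (Function.invFunOn f C y) = y := fun y hy =>
    Function.invFunOn_eq hy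
  have hm : ∀ y ∈ f '' C, Function.invFunOn f C y ∈ C := fun y hy =>
    Function.invFunOn_mem hy
  refine ⟨fun x => Function.invFunOn f C (c x), ?_, ?_, ?_⟩
  · exact (sigma_inv_cont f C hC hinj).comp h1 h3
  · intro x hx y hy hxy
    apply h2 hx hy
    have h4 := congrArg f hxy
    simp only at h4
    rw [hr _ (h3 hx), hr _ (h3 hy)] at h4
    exact h4
  · intro x hx
    exact hm _ (h3 hx)

theorem sigma_thm {X : Type*} [TopologicalSpace X] [CompactSpace X] [T2Space X]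
    (A : Subalgebra ℂ C(X, ℂ)) (hA : IsClosed (A : Set C(X, ℂ))) (hne : A ≠ ⊤)
    (hnat : ∀ φ : A →ₐ[ℂ] ℂ, ∃ x : X, ∀ f : A, φ f = (f : C(X, ℂ)) x)
    (hsep : ∀ x y : X, x ≠ y → ∃ f ∈ A, f x ≠ f y) (f : C(X, ℂ)) (hf : f ∈ A)
    (hc : ∀ t : ℂ, {x | f x = t}.Countable) (C : ℕ → Set X) (hC : ∀ i, IsClosed (C i))
    (hcov : ⋃ i, C i = univ) (hCi : ∀ i, InjOn f (C i) ∨ volume (f '' C i) = 0) :
    ∃ i, HasCarpet (C i) := by
  obtain ⟨K, hK, hKn, hS⟩ := structure_thm A hA hne hnat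
  obtain ⟨x0, hx0, y0, hy0, hxy0⟩ := hKn
  have hnc : ∃ x ∈ K, ∃ y ∈ K, f x ≠ f y := by
    by_contra hcon
    push Not at hcon
    have hKc : K.Countable := (hc (f x0)).mono (fun z hz => hcon z hz x0 hx0)
    obtain ⟨g, hg, hgxy⟩ := hsep x0 y0 hxy0
    obtain ⟨i, hi, -⟩ := hS g hg ⟨x0, hx0, y0, hy0, hgxy⟩ univ isOpen_univ
      ⟨g x0, ⟨x0, hx0, rfl⟩, mem_univ _⟩ (fun _ => g '' K)
      (fun _ => hK.isCompact.image g.continuous)
      (fun z hz => mem_iUnion.mpr ⟨0, hz.1⟩)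
    apply hi
    exact measure_mono_null (fun z hz => hz.2) ((hKc.image g).measure_zero volume)
  obtain ⟨i, hi, hcar⟩ := hS f hf hnc univ isOpen_univ
    ⟨f x0, ⟨x0, hx0, rfl⟩, mem_univ _⟩ (fun i => f '' (K ∩ C i))
    (fun i => (hK.inter (hC i)).isCompact.image f.continuous)
    (fun z hz => by
      obtain ⟨⟨x, hx, rfl⟩, -⟩ := hz
      have hxu : x ∈ ⋃ i, C i := by rw [hcov]; exact mem_univ _
      obtain ⟨i, hxi⟩ := mem_iUnion.mp hxu
      exact mem_iUnion.mpr ⟨i, x, ⟨hx, hxi⟩, rfl⟩)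
  have hsub : f '' K ∩ univ ∩ f '' (K ∩ C i) ⊆ f '' C i := by
    rintro z ⟨-, x, hx, rfl⟩
    exact ⟨x, hx.2, rfl⟩
  refine ⟨i, ?_⟩
  rcases hCi i with hinj | hnull
  · exact sigma_hasCarpet f (C i) (hC i) hinj (hcar.mono hsub) ⟨x0⟩
  · exact absurd (measure_mono_null hsub hnull) hi

end CarU
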